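import Pool.Agent.Helper80.BP.Deficit

/-!
# Shares of users and free lines

Rank four from a state in the cone frame when every user `x` has a share `τ x g` of every line `g`
of its pencils.  A free line (it meets no user of a set `R`) is shared equally by the users on it.
-/

set_option autoImplicit false
set_option linter.unusedSectionVars false

namespace Pool.Agent.Helper78.RC

open Pool.Agent.Helper28.BPack Pool.Agent.Helper61.Motz Pool.Agent.Helper38.Thick
  Pool.Agent.Helper38.SC Pool.Agent.Helper56.BP Pool.Agent.Helper80.BP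
  Pool.Agent.Helper80.BP.Deficit

variable {L : Type} [Lattice L] [BoundedOrder L] [Finite L] [IsUpperModularLattice L]
  [DecidableEq L] [DecidableRel (α := L) (· ≤ ·)]

/-- The lines of the user `x`. -/
def WW (A : Finset L) (own : L → Finset L) (pl : L → L) (x : L) : Finset L :=
  (own x).biUnion (fun a => pen A x (x ⊔ a) (pl (x ⊔ a)))

theorem mem_WW {A : Finset L} {own : L → Finset L} {pl : L → L} {x g : L} :
    g ∈ WW A own pl x ↔ ∃ a ∈ own x, g ∈ pen A x (x ⊔ a) (pl (x ⊔ a)) := by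
  simp only [WW, Finset.mem_biUnion]

/-- Level 3 with a share for every user and every line. -/
theorem level3_tau {A R : Finset L} {own : L → Finset L} {pl : L → L} {τ : L → L → ℚ}
    (hτ0 : ∀ x g, 0 ≤ τ x g)
    (hτ1 : ∀ g, ∑ x ∈ R.filter (fun x => g ∈ WW A own pl x), τ x g ≤ 1)
    (hval : ∀ s : Finset L, s ⊆ R → (s.card : ℚ) < 1 + ∑ x ∈ s, ∑ g ∈ WW A own pl x, τ x g) :
    ∃ cc gg : L → L, (∀ x ∈ R, cc x ∈ own x ∧ gg x ∈ A ∧ gg x ≤ pl (x ⊔ cc x) ∧
        ¬ gg x ≤ x ⊔ cc x) ∧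
      (∀ x ∈ R, ∀ y ∈ R, x ⊔ gg x = y ⊔ gg y → x = y) := by
  classical
  obtain ⟨F, hFinj, hF⟩ := hall_def (X := R) (Y := L) (fun x => WW A own pl x.1)
    (fun x g => τ x.1 g) (fun x g => hτ0 x.1 g)
    (fun s => by
      have h0 := hval (s.image Subtype.val) (fun x hx => by
        obtain ⟨y, _, rfl⟩ := Finset.mem_image.mp hx
        exact y.2)
      rw [Finset.card_image_of_injective _ Subtype.val_injective,
        Finset.sum_image (fun a _ b _ e => Subtype.ext e)] at h0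
      exact h0)
    (fun g => by
      have h1 : R.filter (fun x => g ∈ WW A own pl x) =
          (Finset.univ.filter (fun x : R => g ∈ WW A own pl x.1)).image Subtype.val := by
        ext x
        simp only [Finset.mem_filter, Finset.mem_image, Finset.mem_univ, true_and]
        exact ⟨fun h => ⟨⟨x, h.1⟩, h.2, rfl⟩, fun ⟨y, h, e⟩ => e ▸ ⟨y.2, h⟩⟩
      have h2 := hτ1 g
      rw [h1, Finset.sum_image (fun a _ b _ e => Subtype.ext e)] at h2
      exact h2)
  have hz : ∀ x ∈ R, ∃ c z, c ∈ own x ∧ z ∈ A ∧ z ≤ pl (x ⊔ c) ∧ ¬ z ≤ x ⊔ c ∧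
      x ⊔ z = (if hx : x ∈ R then F ⟨x, hx⟩ else x) := by
    intro x hx
    have h1 := hF ⟨x, hx⟩
    obtain ⟨c, hc, h2⟩ := mem_WW.mp h1
    obtain ⟨z, h3, h4, h5, h6⟩ := mem_pen.mp h2
    exact ⟨c, z, hc, h3, h4, h5, by rw [dif_pos hx]; exact h6⟩
  choose! cc gg h1 h2 h3 h4 h5 using hz
  refine ⟨cc, gg, fun x hx => ⟨h1 x hx, h2 x hx, h3 x hx, h4 x hx⟩, ?_⟩
  intro x hx y hy e
  rw [h5 x hx, h5 y hy, dif_pos hx, dif_pos hy] at e
  exact congrArg Subtype.val (hFinj e)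

section

variable {A : Finset L} {Q o u : L} {ρ : L → L}

/-- **Rank four from a state in the cone frame, a share for every user and every line.** -/
theorem crit4_of_sta_cone_tau (F : FrC A Q o u ρ) {Rep : Finset L} (hRep : Rep ⊆ RC A Q o u ρ)
    {own : L → Finset L} {pl : L → L}
    (S : Sta A (NC A Q o \ Rep) u (ZC o) Rep (ADC A Q o u) own pl) {τ : L → L → ℚ}
    (hτ0 : ∀ x g, 0 ≤ τ x g)
    (hτ1 : ∀ g, ∑ x ∈ (NC A Q o \ Rep).filter (fun x => g ∈ WW A own pl x), τ x g ≤ 1)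
    (hval : ∀ s : Finset L, s ⊆ NC A Q o \ Rep →
      (s.card : ℚ) < 1 + ∑ x ∈ s, ∑ g ∈ WW A own pl x, τ x g) : Crit4 A := by
  classical
  have hmN : ∀ x, x ∈ NC A Q o \ Rep ↔ x ∈ A ∧ ¬ x ≤ Q ∧ x ≠ o ∧ x ∉ Rep := fun x => by
    rw [Finset.mem_sdiff, mem_NC]
    tauto
  obtain ⟨cc, gg, hcc, hgg⟩ := level3_tau (A := A) (R := NC A Q o \ Rep) (own := own) (pl := pl)
    hτ0 hτ1 hval
  -- two points of `u`
  obtain ⟨b1, hb1', b2, hb2', hb12⟩ := Finset.one_lt_card.mp (show 1 < (A.filter (· ≤ u)).card from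
    by have := F.U2; omega)
  obtain ⟨hb1, hbu1⟩ := Finset.mem_filter.mp hb1'
  obtain ⟨hb2, hbu2⟩ := Finset.mem_filter.mp hb2'
  -- same row, same colour
  have hcol : ∀ x ∈ NC A Q o \ Rep, ∀ y ∈ NC A Q o \ Rep, x ⊔ cc x = y ⊔ cc y → cc x = cc y := by
    intro x hx y hy e
    have h1 := S.ownA x hx _ (hcc x hx).1
    have h2 := S.ownA y hy _ (hcc y hy).1
    exact F.fr.col (Finset.mem_sdiff.mp hx).1 h1.1 h1.2 h2.1 h2.2 (by rw [e]; exact le_sup_right)
  refine Pool.Agent.Helper83.RC.crit4_of_coneW (A := A) (Q := Q) (o := o) (u := u)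
    (Rp := fun x => x ∈ Rep) (cc := cc) (gg := gg) (H := fun x => pl (x ⊔ cc x))
    (e1 := fun _ => b1) (e2 := fun _ => b2) F.at_ F.rQ F.oA F.oQ F.ru F.uQ ?_ ?_ ?_ ?_ ?_ ?_ ?_ ?_
    ?_ ?_ ?_
  · intro B hB
    obtain ⟨a, ha, haQ, hau⟩ := F.tri
    refine Pool.Agent.Helper63.HM.crit3_plane F.at_
      ⟨b1, hb1, b2, hb2, a, ha, hbu1.trans F.uQ, hbu2.trans F.uQ, haQ, ?_⟩ F.rQ B hB
    have h1 : b1 ⊔ b2 = u := line_of (F.at_ b1 hb1) (F.at_ b2 hb2) hb12 hbu1 hbu2 F.ru
    rw [h1, rk_sup_atom (F.at_ a ha) hau, F.ru]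
  · intro x _ _ _ hR
    exact F.rep_o (hRep hR)
  · intro x _ _ _ _
    exact ⟨hb1, hbu1, hb2, hbu2, hb12⟩
  · intro x _ _ _ hx y _ _ _ hy e
    obtain ⟨h1, h2, h3, h4⟩ := mem_RC.mp (hRep hx)
    obtain ⟨k1, k2, k3, k4⟩ := mem_RC.mp (hRep hy)
    rw [sup_comm, sup_comm y u] at e
    rw [← h4, e, k4]
  · intro x _ _ _ hx y h1 h2 h3 hy
    have hyN := (hmN y).mpr ⟨h1, h2, h3, hy⟩
    have h4 := S.nrep y hyN _ (hcc y hyN).1 x hx
    exact ⟨fun e => h4 (by rw [e]; exact le_sup_left), fun e => h4 (by rw [e]; exact le_sup_left)⟩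
  · intro x h1 h2 h3 hx
    have hxN := (hmN x).mpr ⟨h1, h2, h3, hx⟩
    exact S.ownA x hxN _ (hcc x hxN).1
  · intro x h1 h2 h3 hx y k1 k2 k3 hy e
    have hxN := (hmN x).mpr ⟨h1, h2, h3, hx⟩
    have hyN := (hmN y).mpr ⟨k1, k2, k3, hy⟩
    have h4 := hcol x hxN y hyN e
    have h5 := (hcc y hyN).1
    rw [← h4] at h5 e
    exact S.uniq x hxN y hyN _ (hcc x hxN).1 h5 e
  · intro x h1 h2 h3 hx
    have hxN := (hmN x).mpr ⟨h1, h2, h3, hx⟩
    have h4 := S.pln x hxN _ (hcc x hxN).1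
    exact ⟨h4.2.1, h4.2.2.1, h4.2.2.2, S.nz x hxN _ (hcc x hxN).1, h4.1.2.2.2⟩
  · intro x h1 h2 h3 hx y k1 k2 k3 hy _ e
    have hxN := (hmN x).mpr ⟨h1, h2, h3, hx⟩
    have hyN := (hmN y).mpr ⟨k1, k2, k3, hy⟩
    exact (S.inj x hxN _ (hcc x hxN).1 y hyN _ (hcc y hyN).1 e).1
  · intro x h1 h2 h3 hx
    have hxN := (hmN x).mpr ⟨h1, h2, h3, hx⟩
    obtain ⟨-, h4, h5, h6⟩ := hcc x hxN
    exact ⟨h4, h5, h6⟩
  · intro x h1 h2 h3 hx y k1 k2 k3 hy e
    exact hgg x ((hmN x).mpr ⟨h1, h2, h3, hx⟩) y ((hmN y).mpr ⟨k1, k2, k3, hy⟩) e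

end

/-! ## Mixed shares -/

section

variable {A R : Finset L} {u : L} {own : L → Finset L} {pl : L → L}

/-- The number of users on a line. -/
def nU (R : Finset L) (g : L) : ℕ := (R.filter (· ≤ g)).card

/-- The share of the user `x` on the line `g`: the shares `σ` of its colours if `g` meets `R₁`, an
equal share otherwise. -/
def tau (A R R₁ : Finset L) (own : L → Finset L) (pl : L → L) (σ : L → L → ℚ) (x g : L) : ℚ :=
  if ∃ r ∈ R₁, r ≤ g then
    ∑ a ∈ (own x).filter (fun a => g ∈ pen A x (x ⊔ a) (pl (x ⊔ a))), σ a g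
  else 1 / (nU R g : ℚ)

variable {R₁ : Finset L} {σ : L → L → ℚ}

theorem tau_nonneg (hσ0 : ∀ a g, 0 ≤ σ a g) (x g : L) : 0 ≤ tau A R R₁ own pl σ x g := by
  unfold tau
  split_ifs
  · exact Finset.sum_nonneg fun a _ => hσ0 a g
  · positivity

/-- What a line gives away. -/
theorem tau_load {Z : L → Prop} {Rep : Finset L} {adj : L → L → Prop}
    (S : Sta A R u Z Rep adj own pl) (hσ0 : ∀ a g, 0 ≤ σ a g)
    (hσ1 : ∀ g, rk g = 2 → ∑ a ∈ A.filter (· ≤ u), σ a g ≤ 1) (g : L) :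
    ∑ x ∈ R.filter (fun x => g ∈ WW A own pl x), tau A R R₁ own pl σ x g ≤ 1 := by
  classical
  have hspec : ∀ x ∈ R, ∀ c ∈ own x, ∀ g ∈ pen A x (x ⊔ c) (pl (x ⊔ c)),
      rk g = 2 ∧ x ≤ g ∧ g ≤ pl (x ⊔ c) ∧ ¬ c ≤ g ∧ g ⊔ c = pl (x ⊔ c) := by
    intro x hx c hc g hg
    obtain ⟨-, h3, h4, -⟩ := S.pln x hx c hc
    exact pen_spec S.at_ (S.mem x hx) (S.ownA x hx c hc).1
      (fun e => S.off x hx (by rw [e]; exact (S.ownA x hx c hc).2)) h3 h4 hg
  by_cases hg : ∃ r ∈ R₁, r ≤ g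
  · simp only [tau, if_pos hg]
    rw [Finset.sum_sigma']
    set T := (R.filter (fun x => g ∈ WW A own pl x)).sigma
      (fun x => (own x).filter (fun a => g ∈ pen A x (x ⊔ a) (pl (x ⊔ a)))) with hT
    have hmT : ∀ p ∈ T, p.1 ∈ R ∧ p.2 ∈ own p.1 ∧
        g ∈ pen A p.1 (p.1 ⊔ p.2) (pl (p.1 ⊔ p.2)) := by
      intro p hp
      rw [hT, Finset.mem_sigma, Finset.mem_filter, Finset.mem_filter] at hp
      exact ⟨hp.1.1, hp.2.1, hp.2.2⟩
    by_cases hne : T.Nonempty
    · obtain ⟨p0, hp0⟩ := hne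
      obtain ⟨q1, q2, q3⟩ := hmT p0 hp0
      have hg2 : rk g = 2 := (hspec p0.1 q1 p0.2 q2 g q3).1
      have hinjT : Set.InjOn (fun p : (Σ _ : L, L) => p.2) T := by
        intro p hp q hq e
        have e' : p.2 = q.2 := e
        obtain ⟨h1, h2, h2'⟩ := hmT p hp
        obtain ⟨h3, h4, h4'⟩ := hmT q hq
        obtain ⟨-, -, -, -, k5⟩ := hspec p.1 h1 p.2 h2 g h2'
        obtain ⟨-, -, -, -, l5⟩ := hspec q.1 h3 q.2 h4 g h4'
        have h5 : pl (p.1 ⊔ p.2) = pl (q.1 ⊔ q.2) := by rw [← l5, ← k5, e']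
        obtain ⟨h6, h7⟩ := S.inj p.1 h1 p.2 h2 q.1 h3 q.2 h4 h5
        exact Sigma.ext h6 (heq_of_eq e')
      calc ∑ p ∈ T, σ p.2 g = ∑ c ∈ T.image (fun p => p.2), σ c g := by
            rw [Finset.sum_image hinjT]
        _ ≤ ∑ c ∈ A.filter (· ≤ u), σ c g := by
            apply Finset.sum_le_sum_of_subset_of_nonneg
            · intro c hc
              obtain ⟨p, hp, rfl⟩ := Finset.mem_image.mp hc
              have h1 := S.ownA p.1 (hmT p hp).1 p.2 (hmT p hp).2.1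
              exact Finset.mem_filter.mpr ⟨h1.1, h1.2⟩
            · intro c _ _
              exact hσ0 c g
        _ ≤ 1 := hσ1 g hg2
    · rw [Finset.not_nonempty_iff_eq_empty] at hne
      rw [hne]
      simp
  · simp only [tau, if_neg hg, Finset.sum_const, nsmul_eq_mul]
    have h1 : (R.filter (fun x => g ∈ WW A own pl x)).card ≤ nU R g := by
      apply Finset.card_le_card
      intro x hx
      obtain ⟨h2, h3⟩ := Finset.mem_filter.mp hx
      obtain ⟨a, ha, h4⟩ := mem_WW.mp h3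
      exact Finset.mem_filter.mpr ⟨h2, (hspec x h2 a ha g h4).2.1⟩
    by_cases h0 : nU R g = 0
    · rw [h0]
      simp
    · have h2 : (0 : ℚ) < nU R g := by exact_mod_cast Nat.pos_of_ne_zero h0
      rw [mul_one_div, div_le_one h2]
      exact_mod_cast h1

/-- The value of a user is at least the `σ`-values of its slots, from the lines which meet `R₁`,
together with the equal shares of any set of free lines of its pencils. -/
theorem tau_value (hσ0 : ∀ a g, 0 ≤ σ a g) (x : L) (G : Finset L) (hG : G ⊆ WW A own pl x)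
    (hfree : ∀ g ∈ G, ¬ ∃ r ∈ R₁, r ≤ g) :
    ∑ a ∈ own x, ∑ g ∈ (pen A x (x ⊔ a) (pl (x ⊔ a))).filter (fun g => ∃ r ∈ R₁, r ≤ g), σ a g
      + ∑ g ∈ G, 1 / (nU R g : ℚ) ≤ ∑ g ∈ WW A own pl x, tau A R R₁ own pl σ x g := by
  classical
  rw [← Finset.sum_filter_add_sum_filter_not (WW A own pl x) (fun g => ∃ r ∈ R₁, r ≤ g)]
  refine add_le_add (le_of_eq ?_) ?_
  · have h1 : ∀ a ∈ own x,
        ∑ g ∈ (pen A x (x ⊔ a) (pl (x ⊔ a))).filter (fun g => ∃ r ∈ R₁, r ≤ g), σ a g =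
        ∑ g ∈ (WW A own pl x).filter (fun g => ∃ r ∈ R₁, r ≤ g),
          if g ∈ pen A x (x ⊔ a) (pl (x ⊔ a)) then σ a g else 0 := by
      intro a ha
      rw [← Finset.sum_filter]
      apply Finset.sum_congr
      · ext g
        simp only [Finset.mem_filter, mem_WW]
        exact ⟨fun h => ⟨⟨⟨a, ha, h.1⟩, h.2⟩, h.1⟩, fun h => ⟨h.2, h.1.2⟩⟩
      · intros; rfl
    rw [Finset.sum_congr rfl h1, Finset.sum_comm]
    apply Finset.sum_congr rfl
    intro g hg
    rw [tau, if_pos (Finset.mem_filter.mp hg).2, Finset.sum_filter]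
  · have h2 : ∀ g ∈ G, (1 : ℚ) / (nU R g : ℚ) = tau A R R₁ own pl σ x g := by
      intro g hg
      rw [tau, if_neg (hfree g hg)]
    rw [Finset.sum_congr rfl h2]
    apply Finset.sum_le_sum_of_subset_of_nonneg
    · intro g hg
      exact Finset.mem_filter.mpr ⟨hG hg, hfree g hg⟩
    · intro g _ _
      exact tau_nonneg hσ0 x g

/-- A user of `R₁` has its `σ`-value. -/
theorem tau_value_mem (hσ0 : ∀ a g, 0 ≤ σ a g) {x : L} (hx1 : x ∈ R₁) :
    ∑ a ∈ own x, ∑ g ∈ pen A x (x ⊔ a) (pl (x ⊔ a)), σ a g ≤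
      ∑ g ∈ WW A own pl x, tau A R R₁ own pl σ x g := by
  classical
  have h := tau_value (A := A) (R := R) (R₁ := R₁) (own := own) (pl := pl) hσ0 x ∅
    (Finset.empty_subset _) (by simp)
  rw [Finset.sum_empty, add_zero] at h
  refine le_trans (le_of_eq ?_) h
  apply Finset.sum_congr rfl
  intro a ha
  apply Finset.sum_congr _ (fun _ _ => rfl)
  ext g
  rw [Finset.mem_filter]
  refine ⟨fun hg => ⟨hg, x, hx1, ?_⟩, fun hg => hg.1⟩
  obtain ⟨z, -, -, -, rfl⟩ := mem_pen.mp hg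
  exact le_sup_left

/-- A guest slot: at least one half from the lines which meet `R₁`. -/
def Guest (A R₁ : Finset L) (pl : L → L) (σ : L → L → ℚ) (x a : L) : Prop :=
  (1 : ℚ) / 2 ≤ ∑ g ∈ (pen A x (x ⊔ a) (pl (x ⊔ a))).filter (fun g => ∃ r ∈ R₁, r ≤ g), σ a g

/-- A free slot: the plane does not meet `R₁`, there are `w ≥ 2` lines with at most `w + 1` users
each. -/
def Free (A R R₁ : Finset L) (pl : L → L) (x a : L) : Prop :=
  (∀ r ∈ R₁, ¬ r ≤ pl (x ⊔ a)) ∧ 2 ≤ (pen A x (x ⊔ a) (pl (x ⊔ a))).card ∧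
    ∀ g ∈ pen A x (x ⊔ a) (pl (x ⊔ a)), nU R g ≤ (pen A x (x ⊔ a) (pl (x ⊔ a))).card + 1

/-- Lower bound for the equal shares of `m` lines with at most `n` users. -/
theorem free_sum {R G : Finset L} {n : ℕ} (hG : ∀ g ∈ G, 1 ≤ nU R g ∧ nU R g ≤ n) :
    (G.card : ℚ) / n ≤ ∑ g ∈ G, 1 / (nU R g : ℚ) := by
  have h1 : ∑ g ∈ G, (1 : ℚ) / n ≤ ∑ g ∈ G, 1 / (nU R g : ℚ) := by
    apply Finset.sum_le_sum
    intro g hg
    obtain ⟨h2, h3⟩ := hG g hg
    have h4 : (0 : ℚ) < nU R g := by exact_mod_cast h2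
    exact one_div_le_one_div_of_le h4 (by exact_mod_cast h3)
  rw [Finset.sum_const, nsmul_eq_mul, mul_one_div] at h1
  exact h1

/-- **A user with two good slots**: guest or free. -/
theorem two_slots {Z : L → Prop} {Rep : Finset L} {adj : L → L → Prop}
    (S : Sta A R u Z Rep adj own pl) (hσ0 : ∀ a g, 0 ≤ σ a g) {x : L} (hx : x ∈ R) {a b : L}
    (ha : a ∈ own x) (hb : b ∈ own x) (hab : a ≠ b)
    (h1 : Guest A R₁ pl σ x a ∨ Free A R R₁ pl x a)
    (h2 : Guest A R₁ pl σ x b ∨ Free A R R₁ pl x b) :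
    1 ≤ ∑ g ∈ WW A own pl x, tau A R R₁ own pl σ x g := by
  classical
  have hspec : ∀ c ∈ own x, ∀ g ∈ pen A x (x ⊔ c) (pl (x ⊔ c)),
      rk g = 2 ∧ x ≤ g ∧ g ≤ pl (x ⊔ c) ∧ ¬ c ≤ g ∧ g ⊔ c = pl (x ⊔ c) := by
    intro c hc g hg
    obtain ⟨-, h3, h4, -⟩ := S.pln x hx c hc
    exact pen_spec S.at_ (S.mem x hx) (S.ownA x hx c hc).1
      (fun e => S.off x hx (by rw [e]; exact (S.ownA x hx c hc).2)) h3 h4 hg
  have hpos : ∀ c ∈ own x, ∀ g ∈ pen A x (x ⊔ c) (pl (x ⊔ c)), 1 ≤ nU R g := by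
    intro c hc g hg
    exact Finset.card_pos.mpr ⟨x, Finset.mem_filter.mpr ⟨hx, (hspec c hc g hg).2.1⟩⟩
  have hsub : ∀ c ∈ own x, pen A x (x ⊔ c) (pl (x ⊔ c)) ⊆ WW A own pl x := fun c hc g hg =>
    mem_WW.mpr ⟨c, hc, hg⟩
  have hfr : ∀ c ∈ own x, Free A R R₁ pl x c → ∀ g ∈ pen A x (x ⊔ c) (pl (x ⊔ c)),
      ¬ ∃ r ∈ R₁, r ≤ g := by
    rintro c hc hf g hg ⟨r, hr, hrg⟩
    exact hf.1 r hr (hrg.trans (hspec c hc g hg).2.2.1)
  set V : L → ℚ := fun c =>
    ∑ g ∈ (pen A x (x ⊔ c) (pl (x ⊔ c))).filter (fun g => ∃ r ∈ R₁, r ≤ g), σ c g with hV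
  have hV0 : ∀ c, 0 ≤ V c := fun c => Finset.sum_nonneg fun g _ => hσ0 c g
  have hVab : V a + V b ≤ ∑ c ∈ own x, V c := by
    rw [← Finset.sum_pair hab]
    apply Finset.sum_le_sum_of_subset_of_nonneg
    · intro c hc
      rw [Finset.mem_insert, Finset.mem_singleton] at hc
      rcases hc with rfl | rfl
      · exact ha
      · exact hb
    · intro c _ _
      exact hV0 c
  have hva := hV0 a
  have hvb := hV0 b
  have hone : ∀ c ∈ own x, Free A R R₁ pl x c →
      (1 : ℚ) / 2 ≤ ∑ g ∈ pen A x (x ⊔ c) (pl (x ⊔ c)), 1 / (nU R g : ℚ) := by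
    intro c hc hf
    refine le_trans ?_ (free_sum (fun g hg => ⟨hpos c hc g hg, hf.2.2 g hg⟩))
    have h3 : (2 : ℚ) ≤ ((pen A x (x ⊔ c) (pl (x ⊔ c))).card : ℚ) := by exact_mod_cast hf.2.1
    push_cast
    rw [div_le_div_iff₀ (by norm_num) (by linarith)]
    linarith
  rcases h1 with h1 | h1
  · rcases h2 with h2 | h2
    · -- guest, guest
      have h := tau_value (A := A) (R := R) (R₁ := R₁) (own := own) (pl := pl) hσ0 x ∅
        (Finset.empty_subset _) (by simp)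
      rw [Finset.sum_empty, add_zero] at h
      have h3 : (1 : ℚ) / 2 ≤ V a := h1
      have h4 : (1 : ℚ) / 2 ≤ V b := h2
      have h5 : ∑ c ∈ own x, V c ≤ _ := h
      linarith
    · -- guest, free
      have h := tau_value (A := A) (R := R) (R₁ := R₁) (own := own) (pl := pl) hσ0 x
        (pen A x (x ⊔ b) (pl (x ⊔ b))) (hsub b hb) (hfr b hb h2)
      have h3 : (1 : ℚ) / 2 ≤ V a := h1
      have h4 := hone b hb h2
      have h5 : ∑ c ∈ own x, V c + _ ≤ _ := h
      linarith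
  · rcases h2 with h2 | h2
    · -- free, guest
      have h := tau_value (A := A) (R := R) (R₁ := R₁) (own := own) (pl := pl) hσ0 x
        (pen A x (x ⊔ a) (pl (x ⊔ a))) (hsub a ha) (hfr a ha h1)
      have h3 : (1 : ℚ) / 2 ≤ V b := h2
      have h4 := hone a ha h1
      have h5 : ∑ c ∈ own x, V c + _ ≤ _ := h
      linarith
    · -- free, free
      set Pa := pen A x (x ⊔ a) (pl (x ⊔ a)) with hPa
      set Pb := pen A x (x ⊔ b) (pl (x ⊔ b)) with hPb
      have h := tau_value (A := A) (R := R) (R₁ := R₁) (own := own) (pl := pl) (σ := σ) hσ0 x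
        (Pa ∪ Pb) (Finset.union_subset (hsub a ha) (hsub b hb)) (by
          intro g hg
          rcases Finset.mem_union.mp hg with hg | hg
          · exact hfr a ha h1 g hg
          · exact hfr b hb h2 g hg)
      have h5 : ∑ c ∈ own x, V c + ∑ g ∈ Pa ∪ Pb, 1 / (nU R g : ℚ) ≤ _ := h
      have h6 : 0 ≤ ∑ c ∈ own x, V c := Finset.sum_nonneg fun c _ => hV0 c
      have hfinal : (1 : ℚ) ≤ ∑ g ∈ Pa ∪ Pb, 1 / (nU R g : ℚ) := by
        obtain ⟨-, ha2, ha3⟩ := h1
        obtain ⟨-, hb2, hb3⟩ := h2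
        -- at most one common line
        have hcom : (Pa ∩ Pb).card ≤ 1 := by
          rw [Finset.card_le_one]
          intro g hg g' hg'
          obtain ⟨g1, g2⟩ := Finset.mem_inter.mp hg
          obtain ⟨g1', g2'⟩ := Finset.mem_inter.mp hg'
          by_contra hne
          obtain ⟨k1, k2, k3, k4, k5⟩ := hspec a ha g g1
          obtain ⟨l1, l2, l3, l4, l5⟩ := hspec b hb g g2
          obtain ⟨k1', k2', k3', k4', k5'⟩ := hspec a ha g' g1'
          obtain ⟨l1', l2', l3', l4', l5'⟩ := hspec b hb g' g2'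
          have e1 : rk (pl (x ⊔ a)) = 3 := (S.pln x hx a ha).2.1
          have e2 : rk (pl (x ⊔ b)) = 3 := (S.pln x hx b hb).2.1
          have hlt : g < g ⊔ g' := by
            refine lt_of_le_of_ne le_sup_left (fun e => hne ?_)
            exact (eq_of_le_of_rk (le_sup_right.trans e.symm.le) (by rw [k1, k1'])).symm
          have h7 : 3 ≤ rk (g ⊔ g') := by
            have := rk_lt hlt
            omega
          have h8 : g ⊔ g' = pl (x ⊔ a) := eq_of_le_of_rk (sup_le k3 k3') (by omega)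
          have h9 : g ⊔ g' = pl (x ⊔ b) := eq_of_le_of_rk (sup_le l3 l3') (by omega)
          exact hab (S.inj x hx a ha x hx b hb (h8.symm.trans h9)).2
        -- split the union
        set wa := Pa.card with hwa
        set wb := Pb.card with hwb
        have hna : ∀ g ∈ Pa, 1 ≤ nU R g ∧ nU R g ≤ wa + 1 := fun g hg =>
          ⟨hpos a ha g hg, ha3 g hg⟩
        have hnb : ∀ g ∈ Pb, 1 ≤ nU R g ∧ nU R g ≤ wb + 1 := fun g hg =>
          ⟨hpos b hb g hg, hb3 g hg⟩
        have hu : Pa ∪ Pb = (Pa \ Pb) ∪ ((Pb \ Pa) ∪ (Pa ∩ Pb)) := by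
          ext g
          simp only [Finset.mem_union, Finset.mem_sdiff, Finset.mem_inter]
          tauto
        have hd1 : Disjoint (Pb \ Pa) (Pa ∩ Pb) := by
          rw [Finset.disjoint_left]
          intro g hg hg'
          simp only [Finset.mem_sdiff, Finset.mem_inter] at hg hg'
          tauto
        have hd2 : Disjoint (Pa \ Pb) ((Pb \ Pa) ∪ (Pa ∩ Pb)) := by
          rw [Finset.disjoint_left]
          intro g hg hg'
          simp only [Finset.mem_sdiff, Finset.mem_union, Finset.mem_inter] at hg hg'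
          tauto
        rw [hu, Finset.sum_union hd2, Finset.sum_union hd1]
        have s1 := free_sum (R := R) (G := Pa \ Pb) (n := wa + 1) (fun g hg =>
          hna g (Finset.mem_sdiff.mp hg).1)
        have s2 := free_sum (R := R) (G := Pb \ Pa) (n := wb + 1) (fun g hg =>
          hnb g (Finset.mem_sdiff.mp hg).1)
        have s3 := free_sum (R := R) (G := Pa ∩ Pb) (n := min wa wb + 1) (fun g hg => by
          obtain ⟨g1, g2⟩ := Finset.mem_inter.mp hg
          obtain ⟨h7, h8⟩ := hna g g1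
          obtain ⟨h9, h10⟩ := hnb g g2
          exact ⟨h7, by omega⟩)
        have c1 : (Pa \ Pb).card + (Pa ∩ Pb).card = wa := by
          rw [hwa]
          exact Finset.card_sdiff_add_card_inter Pa Pb
        have c2 : (Pb \ Pa).card + (Pa ∩ Pb).card = wb := by
          rw [hwb, Finset.inter_comm]
          exact Finset.card_sdiff_add_card_inter Pb Pa
        have c1' : ((Pa \ Pb).card : ℚ) + ((Pa ∩ Pb).card : ℚ) = wa := by exact_mod_cast c1
        have c2' : ((Pb \ Pa).card : ℚ) + ((Pa ∩ Pb).card : ℚ) = wb := by exact_mod_cast c2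
        have ha2' : (2 : ℚ) ≤ wa := by exact_mod_cast ha2
        have hb2' : (2 : ℚ) ≤ wb := by exact_mod_cast hb2
        set m := (Pa ∩ Pb).card with hm
        have hm01 : m = 0 ∨ m = 1 := by omega
        push_cast at s1 s2 s3
        refine le_trans ?_ (add_le_add s1 (add_le_add s2 s3))
        have e1 : ((Pa \ Pb).card : ℚ) = wa - m := by linarith
        have e2 : ((Pb \ Pa).card : ℚ) = wb - m := by linarith
        rw [e1, e2]
        rcases hm01 with h0 | h0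
        · rw [h0]
          have t1 : (2 : ℚ) / 3 ≤ ((wa : ℚ) - (0 : ℕ)) / (wa + 1) := by
            rw [div_le_div_iff₀ (by norm_num) (by linarith)]
            push_cast
            linarith
          have t2 : (2 : ℚ) / 3 ≤ ((wb : ℚ) - (0 : ℕ)) / (wb + 1) := by
            rw [div_le_div_iff₀ (by norm_num) (by linarith)]
            push_cast
            linarith
          have t3 : (0 : ℚ) ≤ ((0 : ℕ) : ℚ) / (min (wa : ℚ) (wb : ℚ) + 1) := by simp
          linarith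
        · rw [h0]
          have t1 : (1 : ℚ) / 3 ≤ ((wa : ℚ) - (1 : ℕ)) / (wa + 1) := by
            rw [div_le_div_iff₀ (by norm_num) (by linarith)]
            push_cast
            linarith
          have t2 : (1 : ℚ) / 3 ≤ ((wb : ℚ) - (1 : ℕ)) / (wb + 1) := by
            rw [div_le_div_iff₀ (by norm_num) (by linarith)]
            push_cast
            linarith
          rcases le_total (wa : ℚ) (wb : ℚ) with hle | hle
          · rw [min_eq_left hle]
            have t3 : ((wa : ℚ) - (1 : ℕ)) / (wa + 1) ≤ ((wb : ℚ) - (1 : ℕ)) / (wb + 1) := by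
              rw [div_le_div_iff₀ (by linarith) (by linarith)]
              push_cast
              nlinarith
            have t4 : (1 : ℚ) ≤ ((wa : ℚ) - (1 : ℕ)) / (wa + 1) +
                (((wa : ℚ) - (1 : ℕ)) / (wa + 1) + ((1 : ℕ) : ℚ) / (wa + 1)) := by
              rw [← add_div, ← add_div, le_div_iff₀ (by linarith)]
              push_cast
              linarith
            linarith
          · rw [min_eq_right hle]
            have t3 : ((wb : ℚ) - (1 : ℕ)) / (wb + 1) ≤ ((wa : ℚ) - (1 : ℕ)) / (wa + 1) := by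
              rw [div_le_div_iff₀ (by linarith) (by linarith)]
              push_cast
              nlinarith
            have t4 : (1 : ℚ) ≤ ((wb : ℚ) - (1 : ℕ)) / (wb + 1) +
                (((wb : ℚ) - (1 : ℕ)) / (wb + 1) + ((1 : ℕ) : ℚ) / (wb + 1)) := by
              rw [← add_div, ← add_div, le_div_iff₀ (by linarith)]
              push_cast
              linarith
            linarith
      linarith

end

end Pool.Agent.Helper78.RC
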